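import Pool.Agent.HIK.Stmts

/-! DVD: divisibility of the interpolation determinant. -/

set_option autoImplicit false

namespace Pool.Agent.HIK.H72

open Polynomial

theorem sum_range_id_eq (N : ℕ) : ∑ k ∈ Finset.range (N + 1), k = N * (N + 1) / 2 := by
  rw [Finset.sum_range_id, Nat.add_sub_cancel, mul_comm]

theorem dvd : DvdStmt := by
  intro R _ N p b y c h
  choose z hz using h
  let M : Matrix (Fin (N + 1)) (Fin (N + 1)) R :=
    Matrix.of fun i k => if (k : ℕ) < N then (b i) ^ (k : ℕ) else z i
  let U : Matrix (Fin (N + 1)) (Fin (N + 1)) R :=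
    Matrix.of fun l k => if (k : ℕ) < N then (if l = k then p ^ (k : ℕ) else 0)
      else (if (l : ℕ) < N then c l * p ^ (l : ℕ) else p ^ N)
  have hMU : interpMatK N (fun i => p * b i) y = M * U := by
    ext i k
    rw [Matrix.mul_apply]
    simp only [interpMatK, M, U, Matrix.of_apply]
    by_cases hk : (k : ℕ) < N
    · simp only [hk, if_true]
      rw [Finset.sum_eq_single k]
      · simp [hk, mul_pow, mul_comm]
      · intro l _ hl; simp [hl]
      · simp
    · simp only [hk, if_false]
      rw [Fin.sum_univ_castSucc]
      simp only [Fin.val_castSucc, Fin.is_lt, if_true, Fin.val_last, lt_irrefl, if_false]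
      have h1 := hz i
      have h2 : ∑ k ∈ Finset.range N, c k * (p * b i) ^ k =
          ∑ x : Fin N, b i ^ (x : ℕ) * (c x * p ^ (x : ℕ)) := by
        rw [Finset.sum_range]
        refine Finset.sum_congr rfl fun x _ => ?_
        rw [mul_pow]; ring
      rw [← h2]
      linear_combination h1
  have hU : U.det = p ^ (N * (N + 1) / 2) := by
    rw [Matrix.det_of_isUpperTriangular]
    · have : ∀ i : Fin (N + 1), U i i = p ^ (i : ℕ) := by
        intro i
        simp only [U, Matrix.of_apply]
        by_cases hi : (i : ℕ) < N
        · simp [hi]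
        · have : (i : ℕ) = N := by omega
          simp [this]
      rw [Finset.prod_congr rfl (fun i _ => this i), Finset.prod_pow_eq_pow_sum,
        Fin.sum_univ_eq_sum_range (fun k => k) (N + 1), sum_range_id_eq]
    · intro i j hij
      simp only [U, Matrix.of_apply]
      have hij' : j < i := hij
      have hj : (j : ℕ) < N := by
        have h1 : (j : ℕ) < (i : ℕ) := hij'
        have h2 := i.2
        omega
      simp [hj, hij'.ne']
  rw [hMU, Matrix.det_mul, hU]
  exact dvd_mul_left _ _

end Pool.Agent.HIK.H72
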