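import Pool.Agent.HIK.Stmts

/-! DZR: density zero relative to all elements of bounded house. -/

set_option autoImplicit false

namespace Pool.Agent.HIK.H72

open Polynomial NumberField Filter

theorem dzr (hbox : BoxStmt) (hbxl : BxlStmt) : DzrStmt := by
  intro K _ _ S
  obtain ⟨C, hC⟩ := hbox K
  obtain ⟨c, hc, hcX⟩ := hbxl K
  unfold DZ
  set m := Module.finrank ℚ K with hm
  constructor
  · intro h
    have h2 := h.const_mul (1 / c)
    rw [mul_zero] at h2
    refine squeeze_zero' (Eventually.of_forall fun X => by positivity) ?_ h2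
    filter_upwards [eventually_ge_atTop 1] with X hX
    have hX0 : (0 : ℝ) < (X : ℝ) ^ m := by
      have : (0 : ℝ) < (X : ℝ) := by exact_mod_cast hX
      positivity
    have hB := hcX X hX
    have hB0 : 0 < c * (X : ℝ) ^ m := mul_pos hc hX0
    calc (Nat.card {a : 𝓞 K // a ∈ S ∧ house (a : K) ≤ X} : ℝ) /
          (Nat.card {a : 𝓞 K // house (a : K) ≤ X} : ℝ)
        ≤ (Nat.card {a : 𝓞 K // a ∈ S ∧ house (a : K) ≤ X} : ℝ) / (c * (X : ℝ) ^ m) :=
          div_le_div_of_nonneg_left (by positivity) hB0 hB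
      _ = 1 / c * ((Nat.card {a : 𝓞 K // a ∈ S ∧ house (a : K) ≤ X} : ℝ) / (X : ℝ) ^ m) := by
          field_simp
  · intro h
    have h2 := h.const_mul ((C : ℝ) * 2 ^ m)
    rw [mul_zero] at h2
    refine squeeze_zero' (Eventually.of_forall fun X => by positivity) ?_ h2
    filter_upwards [eventually_ge_atTop 1] with X hX
    have hX1 : (1 : ℝ) ≤ (X : ℝ) := by exact_mod_cast hX
    have hX0 : (0 : ℝ) < (X : ℝ) ^ m := by positivity
    have hB := hcX X hX
    have hB0 : 0 < c * (X : ℝ) ^ m := mul_pos hc hX0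
    have hB1 : (0 : ℝ) < (Nat.card {a : 𝓞 K // house (a : K) ≤ X} : ℝ) := hB0.trans_le hB
    have hU : (Nat.card {a : 𝓞 K // house (a : K) ≤ X} : ℝ) ≤ (C : ℝ) * 2 ^ m * (X : ℝ) ^ m := by
      have h1 : (Nat.card {a : 𝓞 K // house (a : K) ≤ X} : ℝ) ≤ (C : ℝ) * ((X : ℝ) + 1) ^ m := by
        exact_mod_cast (hC X).2
      refine h1.trans ?_
      rw [mul_assoc, ← mul_pow]
      refine mul_le_mul_of_nonneg_left ?_ (by positivity)
      exact pow_le_pow_left₀ (by positivity) (by linarith) _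
    rw [div_le_iff₀ hX0]
    calc (Nat.card {a : 𝓞 K // a ∈ S ∧ house (a : K) ≤ X} : ℝ)
        = (Nat.card {a : 𝓞 K // a ∈ S ∧ house (a : K) ≤ X} : ℝ) /
          (Nat.card {a : 𝓞 K // house (a : K) ≤ X} : ℝ) *
          (Nat.card {a : 𝓞 K // house (a : K) ≤ X} : ℝ) := by
          field_simp
      _ ≤ (Nat.card {a : 𝓞 K // a ∈ S ∧ house (a : K) ≤ X} : ℝ) /
          (Nat.card {a : 𝓞 K // house (a : K) ≤ X} : ℝ) * ((C : ℝ) * 2 ^ m * (X : ℝ) ^ m) :=
          mul_le_mul_of_nonneg_left hU (by positivity)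
      _ = _ := by ring

end Pool.Agent.HIK.H72
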